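import Pool.Agent.W295.NL.Stm

set_option autoImplicit false

namespace Pool.Agent.W853.NL.DES

open Pool.Agent.W295.NL

lemma orbit {Q Q₁ α : Type} {p : ℕ} (hp : p.Prime) (e : Q ≃ Q₁ × ZMod p) (ζ : Q → Q)
    (hζ : ∀ x, e (ζ x) = ((e x).1, (e x).2 + 1)) (g : Q → α) (hg : ∀ x, g (ζ x) = g x) (x : Q) :
    g x = g (e.symm ((e x).1, 0)) := by
  haveI : NeZero p := ⟨hp.ne_zero⟩
  have key : ∀ (k : ℕ) (a : Q₁), g (e.symm (a, (k : ZMod p))) = g (e.symm (a, 0)) := by
    intro k a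
    induction k with
    | zero => simp
    | succ k ih =>
      have h1 : e.symm (a, ((k + 1 : ℕ) : ZMod p)) = ζ (e.symm (a, (k : ZMod p))) := by
        apply e.injective
        rw [hζ, Equiv.apply_symm_apply, Equiv.apply_symm_apply]
        push_cast
        rfl
      rw [h1, hg, ih]
  have h2 := key (e x).2.val (e x).1
  rw [ZMod.natCast_zmod_val] at h2
  rw [← h2]
  congr 1
  exact (e.symm_apply_apply x).symm

theorem main : S_DES := by
  intro Q L Q' L' φ hL hφ Q₁ L₁ p f e ζ hp hζc hL₁ he hζ hφζ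
  obtain ⟨hhom, hsurj, hcen⟩ := hφ
  have hφ1 : ∀ x, φ x = φ (e.symm ((e x).1, 0)) := orbit hp e ζ hζ φ hφζ
  have he1 : ∀ x y, (e (L x y)).1 = L₁ (e x).1 (e y).1 := fun x y => by rw [he]; rfl
  refine ⟨?_, ?_, ?_⟩
  · intro a b
    show φ (e.symm (L₁ a b, 0)) = L' (φ (e.symm (a, 0))) (φ (e.symm (b, 0)))
    rw [← hhom, hφ1 (L (e.symm (a, 0)) (e.symm (b, 0))), he1, Equiv.apply_symm_apply,
      Equiv.apply_symm_apply]
  · intro w
    obtain ⟨x, hx⟩ := hsurj w
    exact ⟨(e x).1, by rw [← hx]; exact (hφ1 x).symm⟩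
  · intro a a' haa
    obtain ⟨z, hz, hzx⟩ := hcen _ _ haa
    have hcomm : ∀ u, z (ζ u) = ζ (z u) := by
      intro u
      obtain ⟨w, hw⟩ := (hL.1 u).2 u
      have hw' : L u w = u := hw
      rw [← hw']
      rw [← (hζc u w).2, ← (hz u (ζ w)).1, (hζc (z u) w).2, (hz u w).1]
    have H : ∀ u, (e (z u)).1 = (e (z (e.symm ((e u).1, 0)))).1 := by
      refine orbit hp e ζ hζ (fun u => (e (z u)).1) ?_
      intro u
      show (e (z (ζ u))).1 = (e (z u)).1
      rw [hcomm, hζ]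
    refine ⟨fun b => (e (z (e.symm (b, 0)))).1, ?_, ?_⟩
    · intro b c
      constructor
      · show L₁ (e (z (e.symm (b, 0)))).1 c = (e (z (e.symm (L₁ b c, 0)))).1
        have h1 := H (L (e.symm (b, 0)) (e.symm (c, 0)))
        rw [he1, Equiv.apply_symm_apply, Equiv.apply_symm_apply, ← (hz _ _).1, he1,
          Equiv.apply_symm_apply] at h1
        exact h1
      · show L₁ b (e (z (e.symm (c, 0)))).1 = (e (z (e.symm (L₁ b c, 0)))).1
        have h1 := H (L (e.symm (b, 0)) (e.symm (c, 0)))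
        rw [he1, Equiv.apply_symm_apply, Equiv.apply_symm_apply, ← (hz _ _).2, he1,
          Equiv.apply_symm_apply] at h1
        exact h1
    · show (e (z (e.symm (a, 0)))).1 = a'
      rw [hzx, Equiv.apply_symm_apply]

end Pool.Agent.W853.NL.DES
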